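import Pool.Agent.Y6.G.Stm
import Pool.Agent.Y331.EF.Scale

set_option autoImplicit false

/-! # The scaling of solutions (project EP, adaptation of the file of helper331) -/

open Set Filter Topology
open scoped ComplexConjugate

namespace Pool.Agent.Y273.EP.SCALE

open Pool.Agent.Y6.M (Z3 C3 Coef dt cr cj kc nsq len adv leray Kop IsField IsSol energy enstr)
open Pool.Agent.Y331.EF.SCALE
open Pool.Agent.Y6.G (ev)

lemma coeff_bd (p : MvPolynomial (Fin 3) ℝ) : ∃ C : ℝ, ∀ d, |p.coeff d| ≤ C := by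
  refine ⟨∑ d ∈ p.support, |p.coeff d|, fun d => ?_⟩
  by_cases h : d ∈ p.support
  · exact Finset.single_le_sum (f := fun d => |p.coeff d|) (fun _ _ => abs_nonneg _) h
  · rw [MvPolynomial.notMem_support_iff.1 h, abs_zero]
    exact Finset.sum_nonneg fun _ _ => abs_nonneg _

lemma ev_mul (l : ℝ) (p : MvPolynomial (Fin 3) ℝ) (k : Z3) :
    ev (MvPolynomial.C l * p) k = l * ev p k := by
  unfold Pool.Agent.Y6.G.ev
  rw [map_mul, MvPolynomial.eval_C]

lemma ev_mul' (l : ℝ) (p : MvPolynomial (Fin 3) ℝ) :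
    ev (MvPolynomial.C l * p) = fun k => l * ev p k := funext (ev_mul l p)

lemma deg_mul (l : ℝ) (p : MvPolynomial (Fin 3) ℝ) :
    (MvPolynomial.C l * p).totalDegree ≤ p.totalDegree := by
  refine (MvPolynomial.totalDegree_mul _ _).trans ?_
  rw [MvPolynomial.totalDegree_C, zero_add]

theorem t_SCALE : Pool.Agent.Y6.G.S_SCALE := by
  rintro ⟨m, n, T, V, hm, hn, hdm, hdn, hT, -, hsol, huniq, hen, hens⟩ q ε hε
  obtain ⟨Cm, hCm⟩ := coeff_bd m
  obtain ⟨Cn, hCn⟩ := coeff_bd n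
  obtain ⟨M0, hM0⟩ := (hsol.field 0 ⟨le_refl 0, hT⟩).smooth q
  obtain ⟨D, hD⟩ : ∃ D : ℝ, D = |Cm| + |Cn| + |M0| + 1 := ⟨_, rfl⟩
  have hm0 : Cm ≤ D := by
    rw [hD]
    linarith [le_abs_self Cm, abs_nonneg Cn, abs_nonneg M0]
  have hn0 : Cn ≤ D := by
    rw [hD]
    linarith [le_abs_self Cn, abs_nonneg Cm, abs_nonneg M0]
  have hM0' : M0 ≤ D := by
    rw [hD]
    linarith [le_abs_self M0, abs_nonneg Cm, abs_nonneg Cn]
  have hD0 : 0 < D := by
    rw [hD]
    positivity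
  obtain ⟨l, hl⟩ : ∃ l : ℝ, l = ε / D := ⟨_, rfl⟩
  have hl0 : 0 < l := by
    rw [hl]
    positivity
  have hlD : l * D = ε := by
    rw [hl]
    exact div_mul_cancel₀ _ hD0.ne'
  have hlx : ∀ x : ℝ, x ≤ D → l * x ≤ ε := fun x hx =>
    (mul_le_mul_of_nonneg_left hx hl0.le).trans hlD.le
  refine ⟨MvPolynomial.C l * m, MvPolynomial.C l * n, T / l, fun t => sc l (V (l * t)), ?_, ?_,
    (deg_mul l m).trans hdm, (deg_mul l n).trans hdn, ?_, ?_, by positivity, ?_, ?_, ?_, ?_⟩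
  · intro k
    rw [ev_mul, ev_mul, hm]
    ring
  · intro k
    rw [ev_mul, ev_mul, hn]
    ring
  · intro d
    rw [MvPolynomial.coeff_C_mul, MvPolynomial.coeff_C_mul, abs_mul, abs_mul, abs_of_pos hl0]
    exact ⟨hlx _ ((hCm d).trans hm0), hlx _ ((hCn d).trans hn0)⟩
  · intro k j
    simp only [mul_zero]
    rw [sc_apply, norm_mul, Complex.norm_real, Real.norm_eq_abs, abs_of_pos hl0]
    calc len k ^ q * (l * ‖V 0 k j‖) = l * (len k ^ q * ‖V 0 k j‖) := by ring
      _ ≤ l * M0 := mul_le_mul_of_nonneg_left (hM0 k j) hl0.le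
      _ ≤ ε := hlx _ hM0'
  · rw [ev_mul', ev_mul']
    exact sol_sc l hl0 hsol
  · intro T' W hT' hW hW0
    rw [ev_mul', ev_mul'] at hW
    have hinv : 0 < l⁻¹ := inv_pos.mpr hl0
    have h1 := sol_sc l⁻¹ hinv hW
    have em : (fun k => l⁻¹ * (l * ev m k)) = ev m := by
      funext k
      rw [← mul_assoc, inv_mul_cancel₀ hl0.ne', one_mul]
    have en : (fun k => l⁻¹ * (l * ev n k)) = ev n := by
      funext k
      rw [← mul_assoc, inv_mul_cancel₀ hl0.ne', one_mul]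
    rw [em, en, div_inv_eq_mul] at h1
    have h2 : (fun t => sc l⁻¹ (W (l⁻¹ * t))) 0 = V 0 := by
      simp only [mul_zero]
      rw [hW0]
      simp only [mul_zero]
      exact sc_sc l hl0 _
    obtain ⟨h3, h4⟩ := huniq (T' * l) _ (by positivity) h1 h2
    refine ⟨(le_div_iff₀ hl0).mpr h3, ?_⟩
    intro t ht
    have h5 : l * t ∈ Ico 0 (T' * l) := by
      refine ⟨mul_nonneg hl0.le ht.1, ?_⟩
      rw [mul_comm]
      exact mul_lt_mul_of_pos_right ht.2 hl0
    have h6 := h4 (l * t) h5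
    rw [← mul_assoc, inv_mul_cancel₀ hl0.ne', one_mul] at h6
    change W t = sc l (V (l * t))
    rw [← h6, sc_sc' l hl0]
  · intro t ht
    have ht' : l * t ∈ Ico 0 T := by
      refine ⟨mul_nonneg hl0.le ht.1, ?_⟩
      have := (lt_div_iff₀ hl0).mp ht.2
      linarith
    simp only [mul_zero]
    rw [energy_sc, energy_sc, hen _ ht']
  · intro M
    obtain ⟨t, ht, hMt⟩ := hens (M / l ^ 2)
    refine ⟨t / l, ⟨div_nonneg ht.1 hl0.le, div_lt_div_of_pos_right ht.2 hl0⟩, ?_⟩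
    have e : l * (t / l) = t := by field_simp
    simp only [e]
    rw [enstr_sc]
    rw [div_lt_iff₀ (by positivity)] at hMt
    linarith

end Pool.Agent.Y273.EP.SCALE
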